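import Mathlib
import Pool.Agent.H64.QM.V1

/-!
# Bounded average rank in general one-parameter families with full 2-torsion, in short boxes

Let `A`, `B`, `D` be polynomials over `ℚ` such that `A`, `B` and `A - B` are squarefree and pairwise
coprime, `D ≠ 0` is coprime to them and `A`, `B` and `A - B` have the same number of irreducible
factors over `ℚ`; for example `A`, `B` and `A - B` are irreducible and pairwise coprime. Then the
average of `2 ^ rank` of the elliptic curves `y² = x (x - A(t) D(t)) (x - B(t) D(t))` over `ℚ` over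
the rational numbers `t = m / w`, `u < m ≤ u + H`, `1 ≤ w ≤ W`, `(m, w) = 1`, is bounded, uniformly
for the boxes with `H ≥ (|u| + H + W) ^ θ`. If `W > 1` it is assumed that the family has good
reduction at `t = ∞`, that is `A`, `B` and `A - B` have the same degree and `deg A + deg D` is even.
-/

set_option autoImplicit false

namespace Pool.Agent.Results.MP_157626_nt.GeneralFamilies

open Finset UniqueFactorizationMonoid

/-- the curve `y² = x (x - a) (x - b)` -/
def E (a b : ℚ) : WeierstrassCurve ℚ := ⟨0, -(a + b), 0, a * b, 0⟩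

/-- the rank of the group of the rational points -/
noncomputable def rk (W : WeierstrassCurve ℚ) : ℕ := Module.finrank ℤ W.toAffine.Point

/-- the number of the irreducible factors over `ℚ`, with multiplicity -/
noncomputable def nfac (G : Polynomial ℚ) : ℕ := Multiset.card (normalizedFactors G)

/-- the pairs `(m, w)` of coprime integers with `u < m ≤ u + H` and `1 ≤ w ≤ W` -/
noncomputable def box (u : ℤ) (H W : ℕ) : Finset (ℤ × ℕ) :=
  ((Ioc u (u + H)) ×ˢ (Icc 1 W)).filter (fun q => Int.gcd q.1 q.2 = 1)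

/-- **Bounded average of `2 ^ rank` in general families with full 2-torsion, in short boxes.** -/
theorem result (A B D : Polynomial ℚ) (hsq : Squarefree (A * B * (A - B))) (hD : D ≠ 0)
    (hco : IsCoprime D (A * B * (A - B))) (h1 : nfac A = nfac B) (h2 : nfac B = nfac (A - B))
    (θ : ℝ) (hθ : 0 < θ) :
    ∃ C : ℝ, ∀ (u : ℤ) (H W : ℕ), 1 ≤ W →
      (1 < W → A.natDegree = B.natDegree ∧ (A - B).natDegree = A.natDegree ∧
        Even (A.natDegree + D.natDegree)) →
      (|(u : ℝ)| + H + W) ^ θ ≤ H →
      ∑ q ∈ (box u H W).filter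
          (fun q : ℤ × ℕ => (A * B * (A - B) * D).eval ((q.1 : ℚ) / q.2) ≠ 0),
        (2 : ℝ) ^ rk (E (A.eval ((q.1 : ℚ) / q.2) * D.eval ((q.1 : ℚ) / q.2))
          (B.eval ((q.1 : ℚ) / q.2) * D.eval ((q.1 : ℚ) / q.2))) ≤ C * H * W := by
  classical
  obtain ⟨C, hC0, hC⟩ := Pool.Agent.H64.QM.fam3_all A B D hsq hD hco h1 h2 (⌈1 / θ⌉₊)
  refine ⟨C, fun u H W hW hdeg hH => ?_⟩
  obtain ⟨h3, h4⟩ := Pool.Agent.H64.QM.box_size hθ hW hH
  refine le_trans (le_of_eq ?_) (hC u H W h3 hW h4 hdeg)
  have h5 := Pool.Agent.H64.QM.sum_bx u H W (fun m w => Pool.Agent.H64.QM.gf A B D ((m : ℚ) / w))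
  rw [← h5, sum_filter]
  have h : ∀ a b d : ℚ, E (a * d) (b * d) = Pool.Agent.H64.MM.Tw a b d := by
    intro a b d
    unfold E Pool.Agent.H64.MM.Tw
    ext
    · rfl
    · simp only
      ring
    · rfl
    · simp only
      ring
    · rfl
  refine sum_congr rfl fun q _ => ?_
  rw [h]
  rfl

end Pool.Agent.Results.MP_157626_nt.GeneralFamilies
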