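import Mathlib
import Pool.Agent.H64.QM.V1

/-!
# All the moments of `2 ^ rank` for twists by the values of binary forms in short boxes

Let `E_i : y² = x (x - a_i) (x - b_i)`, `i < n`, be elliptic curves over `ℚ` with full rational
2-torsion, let `D_i` be arbitrary nonzero polynomials over `ℚ` and let
`D_i (m, w) = w ^ (deg D_i) D_i (m / w)` be the corresponding binary forms. Then the average of the
product of the numbers `2 ^ rank` of the quadratic twists of `E_i` by `D_i (m, w)` over the pairs of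
coprime integers in the box `u < m ≤ u + H`, `1 ≤ w ≤ W` is bounded, uniformly for the boxes with
`H ≥ (|u| + H + W) ^ θ`.

For `W = 1` these are the twists by `D_i (m)`, `m` an integer of the short interval `(u, u + H]`.
For `u = - X - 1`, `H = 2 X + 1`, `W = X` and `D_i` of even degree these are the twists by `D_i (t)`,
`t` a rational number of height at most `X`.
-/

set_option autoImplicit false

namespace Pool.Agent.Results.MP_157626_nt.PolynomialTwistMoments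

open Finset

/-- the quadratic twist by `d` of the curve `y² = x (x - a) (x - b)`, that is
`y² = x (x - a d) (x - b d)` -/
def Tw (a b d : ℚ) : WeierstrassCurve ℚ := ⟨0, -(a + b) * d, 0, a * b * d ^ 2, 0⟩

/-- the rank of the group of the rational points -/
noncomputable def rk (W : WeierstrassCurve ℚ) : ℕ := Module.finrank ℤ W.toAffine.Point

/-- the value at `(m, w)` of the binary form `w ^ (deg D) D (m / w)` -/
noncomputable def form (D : Polynomial ℚ) (m : ℤ) (w : ℕ) : ℚ :=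
  (w : ℚ) ^ D.natDegree * D.eval ((m : ℚ) / w)

/-- the pairs `(m, w)` of coprime integers with `u < m ≤ u + H` and `1 ≤ w ≤ W` -/
noncomputable def box (u : ℤ) (H W : ℕ) : Finset (ℤ × ℕ) :=
  ((Ioc u (u + H)) ×ˢ (Icc 1 W)).filter (fun q => Int.gcd q.1 q.2 = 1)

theorem moments (k : ℕ) (a b : ℚ) (ha : a ≠ 0) (hb : b ≠ 0) (hab : a ≠ b)
    (D : Polynomial ℚ) (hD : D ≠ 0) (θ : ℝ) (hθ : 0 < θ) : ∃ C : ℝ, 0 ≤ C ∧
      ∀ (u : ℤ) (H W : ℕ), 1 ≤ W → (|(u : ℝ)| + H + W) ^ θ ≤ H →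
      ∑ q ∈ (box u H W).filter (fun q : ℤ × ℕ => form D q.1 q.2 ≠ 0),
        ((2 : ℝ) ^ rk (Tw a b (form D q.1 q.2))) ^ k ≤ C * H * W := by
  classical
  obtain ⟨C, hC0, hC⟩ := Pool.Agent.H64.QM.pm3_one k a b ha hb hab D hD (⌈1 / θ⌉₊)
  refine ⟨C, hC0, fun u H W hW hH => ?_⟩
  obtain ⟨h1, h2⟩ := Pool.Agent.H64.QM.box_size hθ hW hH
  refine le_trans (le_of_eq ?_) (hC u H W h1 hW h2)
  have h3 := Pool.Agent.H64.QM.sum_bx u H W (fun m w => Pool.Agent.H64.QM.gb k a b D m w)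
  rw [← h3, sum_filter]
  refine sum_congr rfl fun q _ => ?_
  rfl

/-- **Joint moments of `2 ^ rank` over twists by the values of binary forms in short boxes.** -/
theorem result (n : ℕ) (a b : Fin n → ℚ) (D : Fin n → Polynomial ℚ)
    (hab : ∀ i, a i ≠ 0 ∧ b i ≠ 0 ∧ a i ≠ b i) (hD : ∀ i, D i ≠ 0) (θ : ℝ) (hθ : 0 < θ) :
    ∃ C : ℝ, ∀ (u : ℤ) (H W : ℕ), 1 ≤ W → (|(u : ℝ)| + H + W) ^ θ ≤ H →
      ∑ q ∈ (box u H W).filter (fun q : ℤ × ℕ => ∀ i, form (D i) q.1 q.2 ≠ 0),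
        ∏ i, (2 : ℝ) ^ rk (Tw (a i) (b i) (form (D i) q.1 q.2)) ≤ C * H * W := by
  classical
  rcases Nat.eq_zero_or_pos n with hn | hn
  · subst hn
    refine ⟨1, fun u H W hW hH => ?_⟩
    simp only [univ_eq_empty, prod_empty, sum_const, nsmul_eq_mul, mul_one]
    have h1 : ((box u H W).filter (fun q : ℤ × ℕ => ∀ i, form (D i) q.1 q.2 ≠ 0)).card ≤
        H * W := by
      refine (card_filter_le _ _).trans ((card_filter_le _ _).trans ?_)
      rw [card_product, Int.card_Ioc, Nat.card_Icc, Nat.add_sub_cancel]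
      refine Nat.mul_le_mul_right _ ?_
      omega
    have h2 : (((box u H W).filter (fun q : ℤ × ℕ => ∀ i, form (D i) q.1 q.2 ≠ 0)).card : ℝ) ≤
        (H : ℝ) * W := by exact_mod_cast h1
    linarith
  · have h1 : ∀ i, ∃ C : ℝ, 0 ≤ C ∧ ∀ (u : ℤ) (H W : ℕ), 1 ≤ W → (|(u : ℝ)| + H + W) ^ θ ≤ H →
      ∑ q ∈ (box u H W).filter (fun q : ℤ × ℕ => form (D i) q.1 q.2 ≠ 0),
        ((2 : ℝ) ^ rk (Tw (a i) (b i) (form (D i) q.1 q.2))) ^ n ≤ C * H * W := fun i =>
      moments n (a i) (b i) (hab i).1 (hab i).2.1 (hab i).2.2 (D i) (hD i) θ hθ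
    choose C hC0 hC using h1
    refine ⟨∑ i, C i, fun u H W hW hH => ?_⟩
    have h2 : ∀ q : ℤ × ℕ, ∏ i, (2 : ℝ) ^ rk (Tw (a i) (b i) (form (D i) q.1 q.2)) ≤
        ∑ i, ((2 : ℝ) ^ rk (Tw (a i) (b i) (form (D i) q.1 q.2))) ^ n := by
      intro q
      have hne : (univ : Finset (Fin n)).Nonempty := ⟨⟨0, hn⟩, mem_univ _⟩
      obtain ⟨i0, _, hi0⟩ := exists_max_image univ
        (fun i => (2 : ℝ) ^ rk (Tw (a i) (b i) (form (D i) q.1 q.2))) hne
      calc ∏ i, (2 : ℝ) ^ rk (Tw (a i) (b i) (form (D i) q.1 q.2))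
          ≤ ∏ _i : Fin n, (2 : ℝ) ^ rk (Tw (a i0) (b i0) (form (D i0) q.1 q.2)) :=
            prod_le_prod (fun _ _ => by positivity) fun i hi => hi0 i hi
        _ = ((2 : ℝ) ^ rk (Tw (a i0) (b i0) (form (D i0) q.1 q.2))) ^ n := by
            rw [prod_const, card_univ, Fintype.card_fin]
        _ ≤ _ := single_le_sum
            (f := fun i => ((2 : ℝ) ^ rk (Tw (a i) (b i) (form (D i) q.1 q.2))) ^ n)
            (fun _ _ => by positivity) (mem_univ i0)
    calc ∑ q ∈ (box u H W).filter (fun q : ℤ × ℕ => ∀ i, form (D i) q.1 q.2 ≠ 0),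
          ∏ i, (2 : ℝ) ^ rk (Tw (a i) (b i) (form (D i) q.1 q.2))
        ≤ ∑ q ∈ (box u H W).filter (fun q : ℤ × ℕ => ∀ i, form (D i) q.1 q.2 ≠ 0),
          ∑ i, ((2 : ℝ) ^ rk (Tw (a i) (b i) (form (D i) q.1 q.2))) ^ n :=
          sum_le_sum fun q _ => h2 q
      _ = ∑ i, ∑ q ∈ (box u H W).filter (fun q : ℤ × ℕ => ∀ i, form (D i) q.1 q.2 ≠ 0),
          ((2 : ℝ) ^ rk (Tw (a i) (b i) (form (D i) q.1 q.2))) ^ n := sum_comm
      _ ≤ ∑ i, C i * H * W := by
          refine sum_le_sum fun i _ => le_trans ?_ (hC i u H W hW hH)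
          refine sum_le_sum_of_subset_of_nonneg ?_ fun _ _ _ => by positivity
          intro t ht
          rw [mem_filter] at ht ⊢
          exact ⟨ht.1, ht.2 i⟩
      _ = (∑ i, C i) * H * W := by rw [sum_mul, sum_mul]

end Pool.Agent.Results.MP_157626_nt.PolynomialTwistMoments
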