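import Mathlib
import Pool.Agent.H27.PG.B5

/-!
# The average of `2 ^ rank` in families with full 2-torsion, over almost prime values of polynomials

Let `A`, `B`, `D` be polynomials over `ℤ` such that `A B (A - B)` is squarefree over `ℚ` and `D` is
nonzero and prime to `A B (A - B)`, and let `g_j`, `j < m`, be polynomials over `ℤ` that are
irreducible over `ℚ` and pairwise non-proportional; let `e` be the sum of their degrees. Assume that
`A`, `B` and `A - B` have the same number of irreducible factors over `ℚ` other than the `g_j`. Then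
the sum of `2 ^ rank` of the twists by `D (t)` of the curves `y² = x (x - A (t)) (x - B (t))` over the
`t ≡ r (mod q)` in the interval `(x, x + H]` at which every number `|g_j (t)|` is prime or has no
prime factor less than `H ^ δ` is at most `C (H / q) (q / φ(q)) ^ (d + e) / (log H) ^ m`, where `d` is
the degree of `A B (A - B) D`, uniformly in `x`, `H`, `q`, `r` with `H / q ≥ (|x| + H) ^ θ`, if the
number `(A B (A - B) D) (r)` is prime to `q`. The polynomials `g_j` may divide `A B (A - B) D`.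

For `m = 1`, `g = t`, `q = 1`: the average of `2 ^ rank`, and hence of the rank, is bounded over the
prime values `t = p ≤ X` of the parameter. For example this holds for `A = t (t + 1)`,
`B = t ^ 2 + 1`, `A - B = t - 1`, `D = 1`.
-/

set_option autoImplicit false

namespace Pool.Agent.Results.MP_157626_nt.PrimeArguments

open Finset UniqueFactorizationMonoid

/-- the quadratic twist by `d` of the curve `y² = x (x - a) (x - b)`, that is
`y² = x (x - a d) (x - b d)` -/
def Tw (a b d : ℚ) : WeierstrassCurve ℚ := ⟨0, -(a + b) * d, 0, a * b * d ^ 2, 0⟩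

/-- the rank of the group of the rational points -/
noncomputable def rk (W : WeierstrassCurve ℚ) : ℕ := Module.finrank ℤ W.toAffine.Point

/-- `|v|` is a prime number, or `v ≠ 0` has no prime factor less than `y` -/
def AlmostPrime (y : ℝ) (v : ℤ) : Prop :=
  v.natAbs.Prime ∨ v ≠ 0 ∧ ∀ p : ℕ, p.Prime → (p : ℤ) ∣ v → y ≤ p

open scoped Classical in
/-- the number of the irreducible factors of `P` over `ℚ` that are not proportional to one of the
polynomials `g j` -/
noncomputable def nfac {m : ℕ} (g : Fin m → Polynomial ℤ) (P : Polynomial ℤ) : ℕ :=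
  Multiset.card ((normalizedFactors (P.map (Int.castRingHom ℚ))).filter
    (fun h => ∀ j, ¬ Associated h ((g j).map (Int.castRingHom ℚ))))

lemma nfac_eq {m : ℕ} (g : Fin m → Polynomial ℤ)
    (hg : ∀ j, Irreducible ((g j).map (Int.castRingHom ℚ))) (P : Polynomial ℤ) :
    Pool.Agent.H27.PG.nfg g P = nfac g P := by
  classical
  unfold Pool.Agent.H27.PG.nfg nfac
  congr 1
  refine Multiset.filter_congr fun h hh => ?_
  have h1 := irreducible_of_normalized_factor h hh
  refine forall_congr' fun j => not_congr ?_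
  exact ⟨fun h2 => h1.associated_of_dvd (hg j) h2, fun h2 => h2.dvd⟩

lemma rg_of {H : ℕ} {δ : ℝ} (hδ : 0 < δ) {v : ℤ} (h : AlmostPrime ((H : ℝ) ^ δ) v) :
    Pool.Agent.H27.PG.Rg ⌈δ⁻¹⌉₊ H v := by
  rcases h with h | ⟨h0, h⟩
  · refine ⟨fun h1 => ?_, fun p hp hpv => ?_⟩
    · rw [h1] at h
      exact Nat.not_prime_zero h
    · exact Or.inl ((Nat.prime_dvd_prime_iff_eq hp h).1 (Int.natCast_dvd.1 hpv))
  · refine ⟨h0, fun p hp hpv => Or.inr ?_⟩
    have h1 := h p hp hpv
    have hp1 : (1 : ℝ) ≤ p := by exact_mod_cast hp.one_lt.le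
    have h2 : (H : ℝ) ≤ (p : ℝ) ^ (⌈δ⁻¹⌉₊ : ℝ) := by
      calc (H : ℝ) = ((H : ℝ) ^ δ) ^ δ⁻¹ := by
            rw [← Real.rpow_mul (Nat.cast_nonneg H), mul_inv_cancel₀ hδ.ne', Real.rpow_one]
        _ ≤ (p : ℝ) ^ δ⁻¹ := Real.rpow_le_rpow (Real.rpow_nonneg (Nat.cast_nonneg H) _) h1
            (inv_nonneg.2 hδ.le)
        _ ≤ _ := Real.rpow_le_rpow_of_exponent_le hp1 (Nat.le_ceil _)
    rw [Real.rpow_natCast] at h2
    exact_mod_cast h2

open scoped Classical in
/-- **Theorem.** The average of `2 ^ rank` in families with full 2-torsion is bounded over the `t` in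
arithmetic progressions in short intervals at which the values of the polynomials `g_j` are primes or
almost primes. -/
theorem result (A B D : Polynomial ℤ)
    (hAB : Squarefree ((A * B * (A - B)).map (Int.castRingHom ℚ))) (hD : D ≠ 0)
    (hco : IsCoprime (D.map (Int.castRingHom ℚ)) ((A * B * (A - B)).map (Int.castRingHom ℚ)))
    (m : ℕ) (g : Fin m → Polynomial ℤ)
    (hg : ∀ j, Irreducible ((g j).map (Int.castRingHom ℚ)))
    (hgg : ∀ j l, j ≠ l → ∀ c : ℚ, (g j).map (Int.castRingHom ℚ) ≠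
      Polynomial.C c * (g l).map (Int.castRingHom ℚ))
    (h1 : nfac g A = nfac g B) (h2 : nfac g B = nfac g (A - B))
    (δ θ : ℝ) (hδ : 0 < δ) (hθ : 0 < θ) :
    ∃ C : ℝ, ∀ (q H : ℕ) (r x : ℤ), 1 ≤ q → 2 ≤ H →
      IsCoprime ((A * B * (A - B) * D).eval r) (q : ℤ) →
      (((|x| : ℤ) : ℝ) + H) ^ θ ≤ (H : ℝ) / q →
      ∑ t ∈ (Ioc x (x + H)).filter (fun t : ℤ => t ≡ r [ZMOD q] ∧
        (∀ j, AlmostPrime ((H : ℝ) ^ δ) ((g j).eval t)) ∧ (A * B * (A - B) * D).eval t ≠ 0),
        (2 : ℝ) ^ rk (Tw (A.eval t : ℤ) (B.eval t : ℤ) (D.eval t : ℤ)) ≤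
          C * ((H : ℝ) / q) * ((q : ℝ) / (q.totient : ℝ)) ^
            ((A * B * (A - B) * D).natDegree + ∑ j, (g j).natDegree) / (Real.log H) ^ m := by
  have hna : ∀ i j, i ≠ j → ¬ Associated ((g i).map (Int.castRingHom ℚ))
      ((g j).map (Int.castRingHom ℚ)) := by
    intro i j hij h
    obtain ⟨u, hu⟩ := h.symm
    obtain ⟨c, _, hc⟩ := Polynomial.isUnit_iff.1 u.isUnit
    refine hgg i j hij c ?_
    rw [← hu, ← hc, mul_comm]
  rw [← nfac_eq g hg, ← nfac_eq g hg] at h1 h2
  obtain ⟨C, hC0, hC⟩ := Pool.Agent.H27.PG.famG A B D hAB hD hco g hg hna h1 h2 ⌈δ⁻¹⌉₊ θ hθ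
  refine ⟨C, fun q H r x hq hH hcop hsz => ?_⟩
  refine le_trans ?_ (hC q H r x hq hH hcop hsz)
  refine sum_le_sum_of_subset_of_nonneg ?_ fun _ _ _ => by positivity
  intro t ht
  rw [mem_filter] at ht ⊢
  exact ⟨ht.1, ht.2.1, fun j => rg_of hδ (ht.2.2.1 j), ht.2.2.2⟩

end Pool.Agent.Results.MP_157626_nt.PrimeArguments
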