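import Mathlib
import Pool.Agent.H27.PG.G8

/-!
# All moments of the rank of the twists over almost prime values of polynomials in short intervals

Let `E_i : y² = x (x - a_i) (x - b_i)`, `i < n`, be elliptic curves over `ℚ` with full rational
2-torsion, let `D_i` be arbitrary nonzero polynomials over `ℤ`, of degrees at most `d`, let `g_j`,
`j < m`, be polynomials over `ℤ` that are irreducible over `ℚ` and pairwise non-proportional, let `e`
be the sum of their degrees, and let `δ > 0` and `θ > 0`. Then the sum of the products of the numbers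
`2 ^ rank` of the quadratic twists of `E_i` by `D_i (t)` over the `t ≡ r (mod q)` in the interval
`(A, A + H]` at which every number `|g_j (t)|` is prime or has no prime factor less than `H ^ δ` is
at most `C (H / q) (q / φ(q)) ^ (d + e) / (log H) ^ m`, uniformly in `A`, `H`, `q`, `r` with
`H / q ≥ (|A| + H) ^ θ`, if the numbers `D_i (r)` are prime to `q`; the number of these `t` is
expected to be of the order of magnitude `(H / q) / (log H) ^ m` if `q = 1`. The polynomials `g_j`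
may divide the polynomials `D_i`.

For example all the moments of `2 ^ rank` of the twists by `D (p)` are bounded on average over the
primes `p ≤ X`, for every nonzero polynomial `D` (`m = 1`, `g = t`); so are those of the twists by
the numbers `t ^ 2 + 1`, `t ≤ X`, that have no prime factor less than `X ^ δ`, relative to
`X / log X`; the linear polynomials `g_j` give prime tuples, and `m = 0` gives all the `t` of short
intervals and of progressions.
-/

set_option autoImplicit false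

namespace Pool.Agent.Results.MP_157626_nt.ShortIntervals

open Finset

/-- the quadratic twist by `d` of the curve `y² = x (x - a) (x - b)`, that is
`y² = x (x - a d) (x - b d)` -/
def Tw (a b d : ℚ) : WeierstrassCurve ℚ := ⟨0, -(a + b) * d, 0, a * b * d ^ 2, 0⟩

/-- the rank of the group of the rational points -/
noncomputable def rk (W : WeierstrassCurve ℚ) : ℕ := Module.finrank ℤ W.toAffine.Point

/-- `|v|` is a prime number, or `v ≠ 0` has no prime factor less than `y` -/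
def AlmostPrime (y : ℝ) (v : ℤ) : Prop :=
  v.natAbs.Prime ∨ v ≠ 0 ∧ ∀ p : ℕ, p.Prime → (p : ℤ) ∣ v → y ≤ p

lemma rg_of {H : ℕ} {δ : ℝ} (hδ : 0 < δ) {v : ℤ} (h : AlmostPrime ((H : ℝ) ^ δ) v) :
    Pool.Agent.H27.PG.Rg ⌈δ⁻¹⌉₊ H v := by
  rcases h with h | ⟨h0, h⟩
  · refine ⟨fun h1 => ?_, fun p hp hpv => ?_⟩
    · rw [h1] at h
      exact Nat.not_prime_zero h
    · exact Or.inl ((Nat.prime_dvd_prime_iff_eq hp h).1 (Int.natCast_dvd.1 hpv))
  · refine ⟨h0, fun p hp hpv => Or.inr ?_⟩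
    have h1 := h p hp hpv
    have hp1 : (1 : ℝ) ≤ p := by exact_mod_cast hp.one_lt.le
    have h2 : (H : ℝ) ≤ (p : ℝ) ^ (⌈δ⁻¹⌉₊ : ℝ) := by
      calc (H : ℝ) = ((H : ℝ) ^ δ) ^ δ⁻¹ := by
            rw [← Real.rpow_mul (Nat.cast_nonneg H), mul_inv_cancel₀ hδ.ne', Real.rpow_one]
        _ ≤ (p : ℝ) ^ δ⁻¹ := Real.rpow_le_rpow (Real.rpow_nonneg (Nat.cast_nonneg H) _) h1
            (inv_nonneg.2 hδ.le)
        _ ≤ _ := Real.rpow_le_rpow_of_exponent_le hp1 (Nat.le_ceil _)
    rw [Real.rpow_natCast] at h2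
    exact_mod_cast h2

open scoped Classical in
/-- **Theorem.** The products of the numbers `2 ^ rank` of the twists by `D_i (t)` are bounded on
average over the `t` in arithmetic progressions in short intervals at which the values of the
polynomials `g_j` are primes or almost primes. -/
theorem result (n : ℕ) (a b : Fin n → ℚ) (D : Fin n → Polynomial ℤ)
    (hab : ∀ i, a i ≠ 0 ∧ b i ≠ 0 ∧ a i ≠ b i) (hD : ∀ i, D i ≠ 0)
    (d : ℕ) (hd : ∀ i, (D i).natDegree ≤ d) (m : ℕ) (g : Fin m → Polynomial ℤ)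
    (hg : ∀ j, Irreducible ((g j).map (Int.castRingHom ℚ)))
    (hgg : ∀ j l, j ≠ l → ∀ c : ℚ, (g j).map (Int.castRingHom ℚ) ≠
      Polynomial.C c * (g l).map (Int.castRingHom ℚ))
    (δ θ : ℝ) (hδ : 0 < δ) (hθ : 0 < θ) :
    ∃ C : ℝ, ∀ (q H : ℕ) (r A : ℤ), 1 ≤ q → 2 ≤ H →
      (∀ i, IsCoprime ((D i).eval r) (q : ℤ)) →
      (((|A| : ℤ) : ℝ) + H) ^ θ ≤ (H : ℝ) / q →
      ∑ t ∈ (Ioc A (A + H)).filter (fun t : ℤ => t ≡ r [ZMOD q] ∧
        (∀ j, AlmostPrime ((H : ℝ) ^ δ) ((g j).eval t)) ∧ ∀ i, (D i).eval t ≠ 0),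
        ∏ i, (2 : ℝ) ^ rk (Tw (a i) (b i) ((D i).eval t : ℤ)) ≤
          C * ((H : ℝ) / q) * ((q : ℝ) / (q.totient : ℝ)) ^ (d + ∑ j, (g j).natDegree) /
            (Real.log H) ^ m := by
  have hna : ∀ i j, i ≠ j → ¬ Associated ((g i).map (Int.castRingHom ℚ))
      ((g j).map (Int.castRingHom ℚ)) := by
    intro i j hij h
    obtain ⟨u, hu⟩ := h.symm
    obtain ⟨c, _, hc⟩ := Polynomial.isUnit_iff.1 u.isUnit
    refine hgg i j hij c ?_
    rw [← hu, ← hc, mul_comm]
  rcases Nat.eq_zero_or_pos n with hn | hn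
  · subst hn
    obtain ⟨C, hC0, hC⟩ := Pool.Agent.H27.PG.twG 0 1 2 one_ne_zero two_ne_zero (by norm_num)
      (1 : Polynomial ℤ) one_ne_zero g hg hna ⌈δ⁻¹⌉₊ θ hθ
    refine ⟨C, fun q H r A hq hH _ hsz => ?_⟩
    have h1 := hC q H r A hq hH (by
      rw [Polynomial.eval_one]
      exact isCoprime_one_left) hsz
    have hφ : (0 : ℝ) < q.totient := by exact_mod_cast Nat.totient_pos.2 (by omega)
    have hqφ : 1 ≤ (q : ℝ) / (q.totient : ℝ) := by
      rw [one_le_div hφ]
      exact_mod_cast Nat.totient_le q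
    have hlH : 0 < Real.log H := Real.log_pos (by exact_mod_cast (by omega : 1 < H))
    refine le_trans ?_ (h1.trans ?_)
    · simp only [univ_eq_empty, prod_empty, pow_zero]
      refine sum_le_sum_of_subset_of_nonneg ?_ fun _ _ _ => zero_le_one
      intro t ht
      rw [mem_filter] at ht ⊢
      refine ⟨ht.1, ht.2.1, fun j => rg_of hδ (ht.2.2.1 j), ?_⟩
      rw [Polynomial.eval_one]
      exact one_ne_zero
    · refine div_le_div_of_nonneg_right ?_ (by positivity)
      refine mul_le_mul_of_nonneg_left ?_ (by positivity)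
      refine pow_le_pow_right₀ hqφ ?_
      simp
  · have h1 : ∀ i, ∃ C : ℝ, 0 ≤ C ∧ ∀ (q H : ℕ) (r A : ℤ), 1 ≤ q → 2 ≤ H →
      IsCoprime ((D i).eval r) (q : ℤ) →
      (((|A| : ℤ) : ℝ) + H) ^ θ ≤ (H : ℝ) / q →
      ∑ t ∈ (Ioc A (A + H)).filter (fun t : ℤ => t ≡ r [ZMOD q] ∧
        (∀ j, Pool.Agent.H27.PG.Rg ⌈δ⁻¹⌉₊ H ((g j).eval t)) ∧ (D i).eval t ≠ 0),
        ((2 : ℝ) ^ rk (Tw (a i) (b i) ((D i).eval t : ℤ))) ^ n ≤
          C * ((H : ℝ) / q) * ((q : ℝ) / (q.totient : ℝ)) ^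
            ((D i).natDegree + ∑ j, (g j).natDegree) / (Real.log H) ^ m := by
      intro i
      obtain ⟨C, hC0, hC⟩ := Pool.Agent.H27.PG.twG n (a i) (b i) (hab i).1 (hab i).2.1 (hab i).2.2
        (D i) (hD i) g hg hna ⌈δ⁻¹⌉₊ θ hθ
      refine ⟨C, hC0, fun q H r A hq hH hcop hsz => ?_⟩
      refine le_trans (le_of_eq ?_) (hC q H r A hq hH hcop hsz)
      refine sum_congr ?_ fun t _ => rfl
      ext t
      simp only [mem_filter]
    choose C hC0 hC using h1
    refine ⟨∑ i, C i, fun q H r A hq hH hcop hsz => ?_⟩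
    have hφ : (0 : ℝ) < q.totient := by exact_mod_cast Nat.totient_pos.2 (by omega)
    have hqφ : 1 ≤ (q : ℝ) / (q.totient : ℝ) := by
      rw [one_le_div hφ]
      exact_mod_cast Nat.totient_le q
    have hlH : 0 < Real.log H := Real.log_pos (by exact_mod_cast (by omega : 1 < H))
    set T := (Ioc A (A + H)).filter (fun t : ℤ => t ≡ r [ZMOD q] ∧
        (∀ j, AlmostPrime ((H : ℝ) ^ δ) ((g j).eval t)) ∧ ∀ i, (D i).eval t ≠ 0) with hT
    have h2 : ∀ t : ℤ, ∏ i, (2 : ℝ) ^ rk (Tw (a i) (b i) ((D i).eval t : ℤ)) ≤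
        ∑ i, ((2 : ℝ) ^ rk (Tw (a i) (b i) ((D i).eval t : ℤ))) ^ n := by
      intro t
      have hne : (univ : Finset (Fin n)).Nonempty := ⟨⟨0, hn⟩, mem_univ _⟩
      obtain ⟨i0, _, hi0⟩ := exists_max_image univ
        (fun i => (2 : ℝ) ^ rk (Tw (a i) (b i) ((D i).eval t : ℤ))) hne
      calc ∏ i, (2 : ℝ) ^ rk (Tw (a i) (b i) ((D i).eval t : ℤ))
          ≤ ∏ _i : Fin n, (2 : ℝ) ^ rk (Tw (a i0) (b i0) ((D i0).eval t : ℤ)) :=
            prod_le_prod (fun _ _ => by positivity) fun i hi => hi0 i hi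
        _ = ((2 : ℝ) ^ rk (Tw (a i0) (b i0) ((D i0).eval t : ℤ))) ^ n := by
            rw [prod_const, card_univ, Fintype.card_fin]
        _ ≤ _ := single_le_sum
            (f := fun i => ((2 : ℝ) ^ rk (Tw (a i) (b i) ((D i).eval t : ℤ))) ^ n)
            (fun _ _ => by positivity) (mem_univ i0)
    calc ∑ t ∈ T, ∏ i, (2 : ℝ) ^ rk (Tw (a i) (b i) ((D i).eval t : ℤ))
        ≤ ∑ t ∈ T, ∑ i, ((2 : ℝ) ^ rk (Tw (a i) (b i) ((D i).eval t : ℤ))) ^ n :=
          sum_le_sum fun t _ => h2 t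
      _ = ∑ i, ∑ t ∈ T, ((2 : ℝ) ^ rk (Tw (a i) (b i) ((D i).eval t : ℤ))) ^ n := sum_comm
      _ ≤ ∑ i, C i * ((H : ℝ) / q) * ((q : ℝ) / (q.totient : ℝ)) ^
            (d + ∑ j, (g j).natDegree) / (Real.log H) ^ m := by
          refine sum_le_sum fun i _ => ?_
          refine le_trans ?_ ((hC i q H r A hq hH (hcop i) hsz).trans ?_)
          · refine sum_le_sum_of_subset_of_nonneg ?_ fun _ _ _ => by positivity
            intro t ht
            rw [hT, mem_filter] at ht
            rw [mem_filter]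
            exact ⟨ht.1, ht.2.1, fun j => rg_of hδ (ht.2.2.1 j), ht.2.2.2 i⟩
          · refine div_le_div_of_nonneg_right ?_ (by positivity)
            have := hC0 i
            refine mul_le_mul_of_nonneg_left ?_ (by positivity)
            exact pow_le_pow_right₀ hqφ (Nat.add_le_add_right (hd i) _)
      _ = _ := by rw [← sum_div, ← sum_mul, ← sum_mul]

end Pool.Agent.Results.MP_157626_nt.ShortIntervals
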